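import Pool.Agent.W2helper40.RC.Fin

set_option autoImplicit false

/-!
The conjecture on the scaled stopping time constant is true for almost every small perturbation of the
`3x+1` function.

The number `1` in `(3n+1)/2` is replaced, independently for every odd `n`, by a random odd number `ξ_n`
which is uniformly distributed in `[-L(n), L(n)]`, where `L` is any slowly varying nondecreasing function
which tends to infinity (as slowly as we like). Once the perturbations are chosen, the map is fixed and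
its trajectories are studied (a quenched result). Almost surely every trajectory is eventually periodic,
there are only finitely many cycles, the limit superior of `σ(n) / log n`, where `σ(n)` is the number of
steps before `n` reaches its cycle, is exactly `γ_RRW = 41.677647...`, and the numbers of the `n ≤ x` with
`σ(n) ≥ α log n` obey the large deviation law of the repeated random walk model.
-/

namespace Pool.Agent.Results.MP_f7abf1_nt.RandomPerturbations

open Filter Topology MeasureTheory ProbabilityTheory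

/-- The perturbed `3x+1` function: `n / 2` for even `n`, and `(3 n + ξ_n) / 2` for odd `n`. For `ξ_n = 1`
it is the `3x+1` function. -/
def T (ξ : ℕ → ℤ) (n : ℕ) : ℕ := if n % 2 = 0 then n / 2 else ((3 * (n : ℤ) + ξ n) / 2).toNat

/-- The size of the perturbations: `L` is nondecreasing, tends to infinity, is slowly varying
(`L(2n) / L(n) → 1`), and `1 ≤ L(n)`, `L(n)^2 ≤ n` for all `n ≥ 1`. -/
structure Amplitude (L : ℕ → ℕ) : Prop where
  mono : Monotone L
  top : Tendsto L atTop atTop
  slow : Tendsto (fun n => (L (2 * n) : ℝ) / L n) atTop (𝓝 1)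
  one : ∀ n, 1 ≤ n → 1 ≤ L n
  sq : ∀ n, 1 ≤ n → (L n) ^ 2 ≤ n

/-- the number of steps of the map `f` before the trajectory of `n` enters its cycle: the least `k` such
that `f^[k] n` is a periodic point of `f` -/
noncomputable def sigma (f : ℕ → ℕ) (n : ℕ) : ℕ := sInf {k : ℕ | f^[k] n ∈ Function.periodicPts f}

/-- `g(a) = sup_θ (θ a - log (½ (2^θ + (2/3)^θ)))`. -/
noncomputable def g (a : ℝ) : ℝ :=
  ⨆ θ : ℝ, (θ * a - Real.log ((1 / 2) * ((2 : ℝ) ^ θ + (2 / 3 : ℝ) ^ θ)))

/-- Let the `ξ_n` be independent and `ξ_n` uniformly distributed on the odd integers in `[-L(n), L(n)]`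
for `n ≥ 1`, and `T = T_ξ`. There is a unique `γ > (½ log (4/3))⁻¹` with `γ g(1/γ) = 1` (the constant
`γ_RRW`), and almost surely: every trajectory of `T` is eventually periodic; `T` has only finitely many
periodic points; the limit superior of `σ(n) / log n` is `γ`; and for every `α` between
`(½ log (4/3))⁻¹` and `γ` the exponent `1 - α g(1/α)` is positive and the number of the `n ≤ x` with
`σ(n) ≥ α log n` is `x^(1 - α g(1/α) + o(1))`. -/
theorem result {Ω : Type*} [MeasurableSpace Ω] (P : Measure Ω) [IsProbabilityMeasure P]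
    (L : ℕ → ℕ) (hL : Amplitude L) (ξ : ℕ → Ω → ℤ) (hmeas : ∀ n, Measurable (ξ n))
    (hind : iIndepFun ξ P)
    (hlaw : ∀ n, 1 ≤ n → P.map (ξ n) = uniformOn {z : ℤ | Odd z ∧ |z| ≤ L n}) :
    ∃ γ : ℝ, (γ > ((1 / 2) * Real.log (4 / 3))⁻¹ ∧ γ * g (1 / γ) = 1) ∧
      (∀ γ' : ℝ, γ' > ((1 / 2) * Real.log (4 / 3))⁻¹ → γ' * g (1 / γ') = 1 → γ' = γ) ∧
      ∀ᵐ ω ∂P,
        (∀ n, ∃ k, (T fun i => ξ i ω)^[k] n ∈ Function.periodicPts (T fun i => ξ i ω)) ∧
        (Function.periodicPts (T fun i => ξ i ω)).Finite ∧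
        limsup (fun n : ℕ => (((sigma (T fun i => ξ i ω) n : ℝ) / Real.log n : ℝ) : EReal)) atTop =
          (γ : EReal) ∧
        (∀ α : ℝ, ((1 / 2) * Real.log (4 / 3))⁻¹ < α → α < γ → 0 < 1 - α * g (1 / α) ∧
          ∀ ε : ℝ, 0 < ε → ∃ X₀ : ℝ, ∀ x : ℝ, X₀ ≤ x →
            x ^ (1 - α * g (1 / α) - ε) ≤ (({n : ℕ | 1 ≤ n ∧ (n : ℝ) ≤ x ∧
              α * Real.log n ≤ sigma (T fun i => ξ i ω) n}.ncard : ℕ) : ℝ) ∧
            (({n : ℕ | 1 ≤ n ∧ (n : ℝ) ≤ x ∧
              α * Real.log n ≤ sigma (T fun i => ξ i ω) n}.ncard : ℕ) : ℝ) ≤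
              x ^ (1 - α * g (1 / α) + ε)) :=
  Pool.Agent.W2helper40.RC.main ⟨hL.mono, hL.top, hL.slow, hL.one, hL.sq⟩ hmeas hind hlaw

end Pool.Agent.Results.MP_f7abf1_nt.RandomPerturbations
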